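import Pool.Agent.K7.H37.UK.Stm

/-!
# Project UK, job CYC: loops with good heights are unknotted (assembly of the topological part)
-/

set_option autoImplicit false

namespace Pool.Agent.K7.H47.UK

open Set Pool.Agent.K7.H37.UK

/-- the polygon of a mapped list -/
theorem mem_poly_map {α E : Type} [AddCommGroup E] [Module ℝ E] (f : α → E) (l : List α) (x : E) :
    x ∈ poly (l.map f) ↔ ∃ e ∈ l.zip (l.rotate 1), x ∈ segment ℝ (f e.1) (f e.2) := by
  unfold poly
  rw [mem_ofPred_eq, ← List.map_rotate, List.zip_map]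
  constructor
  · rintro ⟨e, he, hx⟩
    obtain ⟨e', he', rfl⟩ := List.mem_map.1 he
    exact ⟨e', he', hx⟩
  · rintro ⟨e, he, hx⟩
    exact ⟨Prod.map f f e, List.mem_map.2 ⟨e, he, rfl⟩, hx⟩

theorem mem_zip_rot {α : Type} {l : List α} {e : α × α} (h : e ∈ l.zip (l.rotate 1)) :
    e.1 ∈ l ∧ e.2 ∈ l := by
  obtain ⟨e1, e2⟩ := e
  have := List.of_mem_zip h
  exact ⟨this.1, List.mem_rotate.1 this.2⟩

theorem zip_rot_mem {α : Type} (l : List α) (i : ℕ) (hi : i < l.length) :
    (l[i], l[(i + 1) % l.length]'(Nat.mod_lt _ (by omega))) ∈ l.zip (l.rotate 1) := by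
  have h1 : i < (l.zip (l.rotate 1)).length := by
    simp [List.length_zip, List.length_rotate, hi]
  have h2 := List.getElem_mem h1
  rw [List.getElem_zip, List.getElem_rotate] at h2
  exact h2

/-- `Th` is linear -/
theorem th_comb (s t : ℝ) (x y : R3) : Th (s • x + t • y) = s • Th x + t • Th y := by
  refine Prod.ext ?_ ?_
  · refine Complex.ext ?_ ?_
    · simp [Th]; ring
    · simp [Th]; ring
  · simp [Th]; ring

theorem th_inj : Function.Injective Th := by
  intro x y h
  have h1 := congrArg (fun p : ℂ × ℝ => p.1.re) h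
  have h2 := congrArg (fun p : ℂ × ℝ => p.1.im) h
  have h3 := congrArg (fun p : ℂ × ℝ => p.2) h
  simp only [Th] at h1 h2 h3
  funext i
  fin_cases i
  · show x 0 = y 0
    linarith
  · show x 1 = y 1
    linarith
  · show x 2 = y 2
    linarith

/-- the assembly -/
theorem CYC : StCycJob := by
  intro hTri hRnd hFib hLift hSimp hCh hGr hStr hRho l H hl hnd hadj hH
  obtain ⟨hH1, hH2, hH3⟩ := hH
  refine hRnd _ ?_
  -- scaling
  obtain ⟨Λ, hΛ1, hΛ⟩ : ∃ Λ : ℝ, 1 ≤ Λ ∧ ∀ a ∈ l, ∀ b ∈ l, (lev b : ℝ) - lev a ≤ Λ := by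
    classical
    refine ⟨1 + ∑ a ∈ l.toFinset, ∑ b ∈ l.toFinset, |(lev b : ℝ) - lev a|, ?_, ?_⟩
    · have : 0 ≤ ∑ a ∈ l.toFinset, ∑ b ∈ l.toFinset, |(lev b : ℝ) - lev a| :=
        Finset.sum_nonneg fun a _ => Finset.sum_nonneg fun b _ => abs_nonneg _
      linarith
    · intro a ha b hb
      have h1 : |(lev b : ℝ) - lev a| ≤ ∑ b ∈ l.toFinset, |(lev b : ℝ) - lev a| :=
        Finset.single_le_sum (f := fun b => |(lev b : ℝ) - lev a|)
          (fun b _ => abs_nonneg _) (List.mem_toFinset.2 hb)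
      have h2 : ∑ b ∈ l.toFinset, |(lev b : ℝ) - lev a| ≤
          ∑ a ∈ l.toFinset, ∑ b ∈ l.toFinset, |(lev b : ℝ) - lev a| :=
        Finset.single_le_sum (f := fun a => ∑ b ∈ l.toFinset, |(lev b : ℝ) - lev a|)
          (fun a _ => Finset.sum_nonneg fun b _ => abs_nonneg _) (List.mem_toFinset.2 ha)
      have h3 := le_abs_self ((lev b : ℝ) - lev a)
      linarith
  have hΛ0 : 0 < Λ := by linarith
  obtain ⟨e, he1, he2, he3⟩ := hLift l (fun a => Λ * H a) (by
    intro a ha b hb hab
    have h1 := hH2 a ha b hb hab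
    have h2 : (H a : ℝ) + 1 ≤ H b := by exact_mod_cast h1
    have h3 := hΛ a ha b hb
    nlinarith)
  obtain ⟨G, hG1, hG2⟩ := hFib e he1 he2
  -- the image of the vertices and of the edges
  set F : V → ℂ × ℝ := fun a => ((Th (pt a)).1, Λ * H a) with hF
  have hseg : ∀ a ∈ l, ∀ b ∈ l, Adj a b → ∀ s t : ℝ, 0 ≤ s → 0 ≤ t → s + t = 1 →
      G (s • Th (pt a) + t • Th (pt b)) = s • F a + t • F b := by
    intro a ha b hb hab s t hs ht hst
    have hs' : s = 1 - t := by linarith
    subst hs'
    rw [hG2, he3 a ha b hb hab t ht (by linarith)]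
    refine Prod.ext ?_ ?_
    · simp [hF]
    · simp [hF]
  have hleft : ∀ a ∈ l, ∀ b ∈ l, Adj a b → G (Th (pt a)) = F a := by
    intro a ha b hb hab
    have := hseg a ha b hb hab 1 0 (by norm_num) (by norm_num) (by norm_num)
    simpa using this
  have hright : ∀ a ∈ l, ∀ b ∈ l, Adj a b → G (Th (pt b)) = F b := by
    intro a ha b hb hab
    have := hseg a ha b hb hab 0 1 (by norm_num) (by norm_num) (by norm_num)
    simpa using this
  have himg : G '' poly ((l.map pt).map Th) = poly (l.map F) := by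
    rw [List.map_map]
    ext x
    constructor
    · rintro ⟨y, hy, rfl⟩
      rw [mem_poly_map] at hy ⊢
      obtain ⟨p, hp, s, t, hs, ht, hst, rfl⟩ := hy
      have hp' := mem_zip_rot hp
      refine ⟨p, hp, s, t, hs, ht, hst, ?_⟩
      exact (hseg p.1 hp'.1 p.2 hp'.2 (hadj p hp) s t hs ht hst).symm
    · intro hx
      rw [mem_poly_map] at hx
      obtain ⟨p, hp, s, t, hs, ht, hst, rfl⟩ := hx
      have hp' := mem_zip_rot hp
      refine ⟨s • Th (pt p.1) + t • Th (pt p.2), ?_, hseg p.1 hp'.1 p.2 hp'.2 (hadj p hp) s t hs ht hst⟩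
      rw [mem_poly_map]
      exact ⟨p, hp, s, t, hs, ht, hst, rfl⟩
  -- the hypotheses of CH
  have hlen : (l.map F).length = l.length := List.length_map _
  have hsnd : (l.map F).map Prod.snd = (l.map H).map (fun z : ℤ => Λ * (z : ℝ)) := by
    rw [List.map_map, List.map_map]
    rfl
  have hnd2 : ((l.map F).map Prod.snd).Nodup := by
    rw [List.map_map]
    refine List.Nodup.map_on ?_ hnd
    intro a ha b hb hab
    by_contra hne
    refine hH1 a ha b hb hne ?_
    have h1 : Λ * (H a : ℝ) = Λ * (H b : ℝ) := hab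
    exact_mod_cast mul_left_cancel₀ hΛ0.ne' h1
  have hna : NoAlt ((l.map F).map Prod.snd) := by
    rw [hsnd]
    intro a b c d hsub
    obtain ⟨l', hl', heq⟩ := List.sublist_map_iff.1 hsub
    have hlen' : l'.length = 4 := by
      have := congrArg List.length heq
      simpa using this.symm
    obtain ⟨a', b', c', d', rfl⟩ : ∃ a' b' c' d', l' = [a', b', c', d'] := by
      match l', hlen' with
      | [a', b', c', d'], _ => exact ⟨a', b', c', d', rfl⟩
    simp only [List.map_cons, List.map_nil, List.cons.injEq, and_true] at heq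
    obtain ⟨rfl, rfl, rfl, rfl⟩ := heq
    have hcmp : ∀ x y : ℤ, (Λ * (x : ℝ) < Λ * (y : ℝ)) ↔ x < y := by
      intro x y
      rw [mul_lt_mul_iff_right₀ hΛ0]
      exact Int.cast_lt
    simp only [hcmp]
    exact hH3 a' b' c' d' hl'
  have hsp : SimplePoly (l.map F) := by
    intro i j hi hj hij x hx hy
    have hi' : i < l.length := by rwa [hlen] at hi
    have hj' : j < l.length := by rwa [hlen] at hj
    have hli : (l.map F)[i] = F l[i] := List.getElem_map _
    have hlj : (l.map F)[j] = F l[j] := List.getElem_map _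
    have hli1 : (l.map F)[(i + 1) % (l.map F).length]'(Nat.mod_lt _ (by omega)) =
        F (l[(i + 1) % l.length]'(Nat.mod_lt _ (by omega))) := by
      rw [List.getElem_map]
      congr 2
      simp
    have hlj1 : (l.map F)[(j + 1) % (l.map F).length]'(Nat.mod_lt _ (by omega)) =
        F (l[(j + 1) % l.length]'(Nat.mod_lt _ (by omega))) := by
      rw [List.getElem_map]
      congr 2
      simp
    rw [hli, hli1] at hx ⊢
    rw [hlj, hlj1] at hy ⊢
    have hei := zip_rot_mem l i hi'
    have hej := zip_rot_mem l j hj'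
    set a := l[i] with ha
    set b := l[(i + 1) % l.length]'(Nat.mod_lt _ (by omega)) with hb
    set c := l[j] with hc
    set d := l[(j + 1) % l.length]'(Nat.mod_lt _ (by omega)) with hd
    have mi := mem_zip_rot hei
    have mj := mem_zip_rot hej
    have ai := hadj _ hei
    have aj := hadj _ hej
    simp only at mi mj ai aj
    obtain ⟨s, t, hs, ht, hst, rfl⟩ := hx
    obtain ⟨s', t', hs', ht', hst', hxy⟩ := hy
    rw [← hseg a mi.1 b mi.2 ai s t hs ht hst] at hxy ⊢
    rw [← hseg c mj.1 d mj.2 aj s' t' hs' ht' hst'] at hxy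
    have h1 := G.injective hxy
    rw [← th_comb, ← th_comb] at h1
    have h2 := th_inj h1
    have key := hSimp a b c d ai aj (s • pt a + t • pt b) ⟨s, t, hs, ht, hst, rfl⟩
      ⟨s', t', hs', ht', hst', h2⟩
    rw [← th_comb]
    rcases key with ⟨h3, -⟩ | ⟨h3, h4⟩ | ⟨h3, h4⟩
    · exact absurd ((List.Nodup.getElem_inj_iff hnd).1 h3) hij
    · exfalso
      have h5 := (List.Nodup.getElem_inj_iff hnd).1 h3
      have h6 := (List.Nodup.getElem_inj_iff hnd).1 h4
      have h7 : (i + 1) % l.length = j := h6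
      have h8 : i = (j + 1) % l.length := h5
      rcases Nat.lt_or_ge (i + 1) l.length with h9 | h9
      · rw [Nat.mod_eq_of_lt h9] at h7
        subst h7
        rcases Nat.lt_or_ge (i + 1 + 1) l.length with h10 | h10
        · rw [Nat.mod_eq_of_lt h10] at h8
          omega
        · have h11 : i + 1 + 1 = l.length := by omega
          rw [h11, Nat.mod_self] at h8
          omega
      · have h11 : i + 1 = l.length := by omega
        rw [h11, Nat.mod_self] at h7
        subst h7
        rw [Nat.mod_eq_of_lt (by omega)] at h8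
        omega
    · constructor
      · rcases h3 with h3 | h3
        · left
          rw [h3]
          exact hleft a mi.1 b mi.2 ai
        · right
          rw [h3]
          exact hright a mi.1 b mi.2 ai
      · rcases h4 with h4 | h4
        · left
          rw [h4]
          exact hleft c mj.1 d mj.2 aj
        · right
          rw [h4]
          exact hright c mj.1 d mj.2 aj
  obtain ⟨X, Y, bot, top, hX, hY, hXb, hYb, hXt, hYt, hXc, hYc, hXY, hint⟩ :=
    hCh (l.map F) (by rw [hlen]; exact hl) hnd2 hna hsp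
  obtain ⟨hbt, p, hp1, hp2, hp3, hp4, hp5⟩ := hGr X bot top hX hXb hXt hXc
  obtain ⟨-, q, hq1, hq2, hq3, hq4, hq5⟩ := hGr Y bot top hY hYb hYt hYc
  have hne : ∀ t ∈ Ioo bot.2 top.2, p t ≠ q t := by
    intro t ht hpq
    have h1 : (p t, t) ∈ arc X ∩ arc Y := by
      refine ⟨?_, ?_⟩
      · rw [hp4]
        exact ⟨t, ⟨ht.1.le, ht.2.le⟩, rfl⟩
      · rw [hq4]
        exact ⟨t, ⟨ht.1.le, ht.2.le⟩, by rw [hpq]⟩
    rw [hint] at h1
    rcases h1 with h1 | h1
    · have := congrArg Prod.snd h1
      simp only at this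
      exact ht.1.ne' this
    · have := congrArg Prod.snd (mem_singleton_iff.1 h1)
      simp only at this
      exact ht.2.ne this
  have hfin := hStr p q bot.2 top.2 hbt hp1 hq1 (hp2.trans hq2.symm) (hp3.trans hq3.symm) hne hp5 hq5
  rw [← hp4, ← hq4, ← hXY] at hfin
  have h1 := hTri.2.1 G (poly ((l.map pt).map Th)) hG1
  rw [himg] at h1
  exact hTri.1 _ _ _ (hTri.1 _ _ _ h1 hfin) hRho

end Pool.Agent.K7.H47.UK
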