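import Pool.Agent.K7.H37.UK.Stm

/-!
# Project UK, job RND
-/

set_option autoImplicit false

noncomputable section

namespace Pool.Agent.K7.H47.UK.RNDJ

open Set Pool.Agent.K7.H37.UK

/-- the inverse of `Th` -/
def ThI (p : ℂ × ℝ) : R3 :=
  ![(2 * p.1.re - p.1.im + p.2) / 3, (2 * p.1.im - p.1.re + p.2) / 3, (p.2 - p.1.re - p.1.im) / 3]

theorem thI_th (x : R3) : ThI (Th x) = x := by
  funext i
  fin_cases i
  · show (2 * (x 0 - x 2) - (x 1 - x 2) + (x 0 + x 1 + x 2)) / 3 = x 0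
    ring
  · show (2 * (x 1 - x 2) - (x 0 - x 2) + (x 0 + x 1 + x 2)) / 3 = x 1
    ring
  · show ((x 0 + x 1 + x 2) - (x 0 - x 2) - (x 1 - x 2)) / 3 = x 2
    ring

theorem th_thI (p : ℂ × ℝ) : Th (ThI p) = p := by
  refine Prod.ext ?_ ?_
  · refine Complex.ext ?_ ?_
    · show (2 * p.1.re - p.1.im + p.2) / 3 - (p.2 - p.1.re - p.1.im) / 3 = p.1.re
      ring
    · show (2 * p.1.im - p.1.re + p.2) / 3 - (p.2 - p.1.re - p.1.im) / 3 = p.1.im
      ring
  · show (2 * p.1.re - p.1.im + p.2) / 3 + (2 * p.1.im - p.1.re + p.2) / 3 +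
      (p.2 - p.1.re - p.1.im) / 3 = p.2
    ring

theorem th_cont : Continuous Th := by
  have h : Th = fun x : R3 => (((x 0 - x 2 : ℝ) : ℂ) + ((x 1 - x 2 : ℝ) : ℂ) * Complex.I,
      x 0 + x 1 + x 2) := by
    funext x
    refine Prod.ext ?_ rfl
    exact (Complex.mk_eq_add_mul_I _ _)
  rw [h]
  refine Continuous.prodMk ?_ ?_
  · fun_prop
  · fun_prop

theorem thI_cont : Continuous ThI := by
  refine continuous_pi fun i => ?_
  fin_cases i
  · show Continuous fun p : ℂ × ℝ => (2 * p.1.re - p.1.im + p.2) / 3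
    fun_prop
  · show Continuous fun p : ℂ × ℝ => (2 * p.1.im - p.1.re + p.2) / 3
    fun_prop
  · show Continuous fun p : ℂ × ℝ => (p.2 - p.1.re - p.1.im) / 3
    fun_prop

/-- the inverse of `Th` as a homeomorphism -/
def inv : (ℂ × ℝ) ≃ₜ R3 where
  toFun := ThI
  invFun := Th
  left_inv := th_thI
  right_inv := thI_th
  continuous_toFun := thI_cont
  continuous_invFun := th_cont

theorem th_comb (s t : ℝ) (x y : R3) : Th (s • x + t • y) = s • Th x + t • Th y := by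
  refine Prod.ext ?_ ?_
  · refine Complex.ext ?_ ?_
    · simp [Th]; ring
    · simp [Th]; ring
  · simp [Th]; ring

/-- job RND -/
theorem RND (h : StTri) : StRnd := by
  intro l hl
  have h1 := h.2.2 inv _ _ hl
  have h2 : inv '' poly (l.map Th) = poly l := by
    ext x
    constructor
    · rintro ⟨y, ⟨e, he, s, t, hs, ht, hst, rfl⟩, rfl⟩
      rw [← List.map_rotate, List.zip_map] at he
      obtain ⟨e', he', rfl⟩ := List.mem_map.1 he
      refine ⟨e', he', s, t, hs, ht, hst, ?_⟩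
      show s • e'.1 + t • e'.2 = ThI (s • Th e'.1 + t • Th e'.2)
      rw [← th_comb, thI_th]
    · rintro ⟨e, he, s, t, hs, ht, hst, rfl⟩
      refine ⟨Th (s • e.1 + t • e.2), ?_, thI_th _⟩
      refine ⟨(Th e.1, Th e.2), ?_, s, t, hs, ht, hst, (th_comb s t e.1 e.2).symm⟩
      rw [← List.map_rotate, List.zip_map]
      exact List.mem_map.2 ⟨e, he, rfl⟩
  rw [h2] at h1
  refine ⟨inv '' K0, ?_, h1⟩
  refine ⟨0, ![2 / 3, -1 / 3, -1 / 3], ![√2 / 3, √2 / 3, √2 / 3], ?_, ?_, ?_, ?_⟩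
  · intro h0
    have := congrFun h0 0
    norm_num at this
  · show (2 / 3 : ℝ) * (√2 / 3) + (-1 / 3) * (√2 / 3) + (-1 / 3) * (√2 / 3) = 0
    ring
  · show (2 / 3 : ℝ) ^ 2 + (-1 / 3) ^ 2 + (-1 / 3) ^ 2 = (√2 / 3) ^ 2 + (√2 / 3) ^ 2 + (√2 / 3) ^ 2
    have h3 : (√2 : ℝ) ^ 2 = 2 := Real.sq_sqrt (by norm_num)
    rw [div_pow (√2) 3, h3]
    norm_num
  · ext x
    constructor
    · rintro ⟨p, ⟨θ, rfl⟩, rfl⟩
      refine ⟨θ, ?_⟩
      funext i
      fin_cases i
      · show (2 * (Real.cos θ : ℂ).re - (Real.cos θ : ℂ).im + √2 * Real.sin θ) / 3 =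
          0 + Real.cos θ * (2 / 3) + Real.sin θ * (√2 / 3)
        rw [Complex.ofReal_re, Complex.ofReal_im]
        ring
      · show (2 * (Real.cos θ : ℂ).im - (Real.cos θ : ℂ).re + √2 * Real.sin θ) / 3 =
          0 + Real.cos θ * (-1 / 3) + Real.sin θ * (√2 / 3)
        rw [Complex.ofReal_re, Complex.ofReal_im]
        ring
      · show (√2 * Real.sin θ - (Real.cos θ : ℂ).re - (Real.cos θ : ℂ).im) / 3 =
          0 + Real.cos θ * (-1 / 3) + Real.sin θ * (√2 / 3)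
        rw [Complex.ofReal_re, Complex.ofReal_im]
        ring
    · rintro ⟨θ, rfl⟩
      refine ⟨((Real.cos θ : ℂ), √2 * Real.sin θ), ⟨θ, rfl⟩, ?_⟩
      funext i
      fin_cases i
      · show (2 * (Real.cos θ : ℂ).re - (Real.cos θ : ℂ).im + √2 * Real.sin θ) / 3 =
          0 + Real.cos θ * (2 / 3) + Real.sin θ * (√2 / 3)
        rw [Complex.ofReal_re, Complex.ofReal_im]
        ring
      · show (2 * (Real.cos θ : ℂ).im - (Real.cos θ : ℂ).re + √2 * Real.sin θ) / 3 =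
          0 + Real.cos θ * (-1 / 3) + Real.sin θ * (√2 / 3)
        rw [Complex.ofReal_re, Complex.ofReal_im]
        ring
      · show (√2 * Real.sin θ - (Real.cos θ : ℂ).re - (Real.cos θ : ℂ).im) / 3 =
          0 + Real.cos θ * (-1 / 3) + Real.sin θ * (√2 / 3)
        rw [Complex.ofReal_re, Complex.ofReal_im]
        ring

end Pool.Agent.K7.H47.UK.RNDJ
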